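import Pool.Agent.W805.LR.Stm

/-! Task LR-PB (helper805): damage of a transposition, near points. -/

set_option autoImplicit false

namespace Pool.Agent.W248.LR

open Finset Equiv Pool.Agent.W805.LR

section

variable {V : Type} [Fintype V]

lemma cnt_eq (P : V → Prop) [DecidablePred P] : cnt P = ((univ.filter P).card : ℝ) := by
  classical
  unfold cnt
  rw [card_filter]
  push_cast
  refine sum_congr rfl fun v _ => ?_
  by_cases h : P v <;> simp [h]

lemma cnt_nonneg (P : V → Prop) : 0 ≤ cnt P := by
  classical
  rw [cnt_eq]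
  positivity

lemma cnt_mono {P Q : V → Prop} (h : ∀ v, P v → Q v) : cnt P ≤ cnt Q := by
  classical
  rw [cnt_eq, cnt_eq]
  exact_mod_cast card_le_card (monotone_filter_right _ (fun v _ hv => h v hv))

lemma cnt_or_le (P Q : V → Prop) : cnt (fun v => P v ∨ Q v) ≤ cnt P + cnt Q := by
  classical
  rw [cnt_eq, cnt_eq, cnt_eq, filter_or]
  exact_mod_cast card_union_le _ _

lemma cnt_congr {P Q : V → Prop} (h : ∀ v, P v ↔ Q v) : cnt P = cnt Q :=
  le_antisymm (cnt_mono fun v => (h v).1) (cnt_mono fun v => (h v).2)

lemma cnt_false {P : V → Prop} (h : ∀ v, ¬ P v) : cnt P = 0 := by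
  classical
  rw [cnt_eq, filter_false_of_mem (fun v _ => h v)]
  simp

/-- points on the same cycle have the same length -/
lemma len_congr [DecidableEq V] {g : Perm V} {v w : V} (h : g.SameCycle v w) :
    len g v = len g w :=
  cnt_congr fun _ => ⟨fun h1 => h.symm.trans h1, fun h1 => h.trans h1⟩

lemma len_nonneg [DecidableEq V] (g : Perm V) (v : V) : 0 ≤ len g v := cnt_nonneg _

/-- the minimal period is at most the length -/
lemma period_le_len [DecidableEq V] (g : Perm V) (v : V) :
    (Function.minimalPeriod g v : ℝ) ≤ len g v := by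
  classical
  unfold len
  rw [cnt_eq]
  have h1 : ((range (Function.minimalPeriod g v)).image fun i => (g ^ i) v) ⊆
      univ.filter fun w => g.SameCycle v w := by
    intro w hw
    rw [mem_image] at hw
    obtain ⟨i, -, rfl⟩ := hw
    rw [mem_filter]
    exact ⟨mem_univ _, ⟨i, by simp⟩⟩
  have h2 := card_le_card h1
  rw [card_image_of_injOn, card_range] at h2
  · exact_mod_cast h2
  · intro i hi j hj hij
    have h3 := Function.iterate_injOn_Iio_minimalPeriod (f := g) (x := v)
    refine h3 ?_ ?_ ?_
    · simpa using hi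
    · simpa using hj
    · simpa [Perm.iterate_eq_pow] using hij

lemma period_pos (g : Perm V) (v : V) : 0 < Function.minimalPeriod g v := by
  classical
  refine Function.minimalPeriod_pos_of_mem_periodicPts ?_
  refine ⟨orderOf g, orderOf_pos g, ?_⟩
  unfold Function.IsPeriodicPt Function.IsFixedPt
  rw [Perm.iterate_eq_pow, pow_orderOf_eq_one]
  rfl

lemma near_aux [DecidableEq V] {g : Perm V} {u w : V} {s : ℝ}
    (h : ¬ (swap u w * g).SameCycle u w) (hs : len (swap u w * g) u < s) :
    ∃ k : ℕ, 0 < k ∧ (k : ℝ) < s ∧ (g ^ k) u = w := by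
  set g' := swap u w * g with hg'
  set n := Function.minimalPeriod g' u with hn
  have hn0 : 0 < n := period_pos g' u
  have key : ∀ i : ℕ, i < n → (g ^ i) u = (g' ^ i) u := by
    intro i
    induction i with
    | zero => intro _; rfl
    | succ i ih =>
      intro hi
      have h1 := ih (by omega)
      have h2 : (g' ^ (i + 1)) u = swap u w (g ((g ^ i) u)) := by
        rw [h1, pow_succ', Perm.mul_apply, hg', Perm.mul_apply]
      have h3 : (g' ^ (i + 1)) u ≠ u := by
        intro h4
        have h5 : Function.IsPeriodicPt g' (i + 1) u := by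
          unfold Function.IsPeriodicPt Function.IsFixedPt
          rw [Perm.iterate_eq_pow]
          exact h4
        have h6 := h5.minimalPeriod_le (by omega)
        omega
      have h4 : (g' ^ (i + 1)) u ≠ w := by
        intro h5
        exact h ⟨((i + 1 : ℕ) : ℤ), by rw [zpow_natCast]; exact h5⟩
      rw [pow_succ' g, Perm.mul_apply]
      have h5 : g ((g ^ i) u) = swap u w ((g' ^ (i + 1)) u) := by
        rw [h2, swap_apply_self]
      rw [h5, swap_apply_of_ne_of_ne h3 h4]
  refine ⟨n, hn0, lt_of_le_of_lt (period_le_len g' u) hs, ?_⟩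
  obtain ⟨m, hm⟩ : ∃ m, n = m + 1 := ⟨n - 1, by omega⟩
  have h1 := key m (by omega)
  have h2 : (g' ^ (m + 1)) u = u := by
    rw [← hm, ← Perm.iterate_eq_pow]
    exact Function.isPeriodicPt_minimalPeriod g' u
  rw [pow_succ', Perm.mul_apply, ← h1, hg', Perm.mul_apply] at h2
  rw [hm, pow_succ', Perm.mul_apply]
  have h3 : g ((g ^ m) u) = swap u w u := by
    have h5 := congrArg (swap u w) h2
    rwa [swap_apply_self] at h5
  rw [h3, swap_apply_left]

end

theorem main_near : S_near := by
  intro V _ _ g s u hs
  classical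
  set K := Finset.Ico 1 ⌈s⌉₊ with hK
  have hcard : (K.card : ℝ) ≤ s := by
    rw [hK, Nat.card_Ico]
    rcases Nat.eq_zero_or_pos ⌈s⌉₊ with h | h
    · rw [h]; simpa using hs
    · have h1 := Nat.ceil_lt_add_one hs
      rw [Nat.cast_sub h]
      push_cast
      linarith
  rw [cnt_eq]
  have hsub : (univ.filter fun w => near g s u w) ⊆
      (K.image fun k => (g ^ k) u) ∪ (K.image fun k => (g ^ k)⁻¹ u) := by
    intro w hw
    rw [mem_filter] at hw
    obtain ⟨-, k, hk0, hks, h⟩ := hw
    have hkK : k ∈ K := by
      rw [hK, mem_Ico]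
      exact ⟨hk0, Nat.lt_ceil.2 hks⟩
    rw [mem_union, mem_image, mem_image]
    rcases h with h | h
    · exact Or.inl ⟨k, hkK, h⟩
    · exact Or.inr ⟨k, hkK, by rw [← h]; simp⟩
  have h1 := card_le_card hsub
  have h2 := card_union_le (K.image fun k => (g ^ k) u) (K.image fun k => (g ^ k)⁻¹ u)
  have h3 : (K.image fun k => (g ^ k) u).card ≤ K.card := card_image_le
  have h4 : (K.image fun k => (g ^ k)⁻¹ u).card ≤ K.card := card_image_le
  have h5 : ((univ.filter fun w => near g s u w).card : ℝ) ≤ 2 * K.card := by
    have : (univ.filter fun w => near g s u w).card ≤ 2 * K.card := by omega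
    exact_mod_cast this
  linarith

theorem main_damage (hm : S_merge) (hsp : S_split) : S_damage := by
  intro V _ _ g u w s hs
  classical
  by_cases huw : u = w
  · subst huw
    have h1 : swap u u * g = g := by rw [swap_self]; rfl
    rw [h1]
    refine ⟨?_, fun v h2 h3 => absurd h3 (not_lt.2 h2)⟩
    rw [cnt_false (fun v h => absurd h.2 (not_lt.2 h.1))]
    linarith
  by_cases hc : g.SameCycle u w
  · obtain ⟨h1, h2, -, h4⟩ := hsp V g u w huw hc
    set g' := swap u w * g with hg'
    have hcl : ∀ v, s ≤ len g v → len g' v < s →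
        (g'.SameCycle u v ∧ len g' u < s) ∨ (g'.SameCycle w v ∧ len g' w < s) := by
      intro v h5 h6
      by_cases h7 : g.SameCycle u v
      · rcases h4 v h7 with h8 | h8
        · exact Or.inl ⟨h8, by rw [len_congr h8]; exact h6⟩
        · exact Or.inr ⟨h8, by rw [len_congr h8]; exact h6⟩
      · exfalso
        have h8 : len g' v = len g v := cnt_congr (h2 v h7)
        rw [h8] at h6
        exact absurd h6 (not_lt.2 h5)
    have hbd : ∀ x : V, cnt (fun v => g'.SameCycle x v ∧ len g' x < s) ≤ s := by
      intro x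
      by_cases hx : len g' x < s
      · exact (cnt_mono fun v hv => hv.1).trans hx.le
      · rw [cnt_false (fun v hv => hx hv.2)]
        exact hs
    refine ⟨?_, fun v h5 h6 => ?_⟩
    · have h5 := cnt_mono (fun v (hv : s ≤ len g v ∧ len g' v < s) => hcl v hv.1 hv.2)
      have h6 := cnt_or_le (fun v => g'.SameCycle u v ∧ len g' u < s)
        (fun v => g'.SameCycle w v ∧ len g' w < s)
      have h7 := hbd u
      have h8 := hbd w
      linarith
    · rcases hcl v h5 h6 with h7 | h7
      · obtain ⟨k, hk, hks, h8⟩ := near_aux h1 h7.2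
        exact ⟨k, hk, hks, Or.inl h8⟩
      · have h9 : ¬ (swap w u * g).SameCycle w u := by
          rw [swap_comm, ← hg']
          exact fun h => h1 h.symm
        have h10 : len (swap w u * g) w < s := by
          rw [swap_comm, ← hg']
          exact h7.2
        obtain ⟨k, hk, hks, h8⟩ := near_aux h9 h10
        exact ⟨k, hk, hks, Or.inr h8⟩
  · obtain ⟨h1, h2, -⟩ := hm V g u w hc
    have hno : ∀ v, s ≤ len g v → ¬ len (swap u w * g) v < s := by
      intro v h3 h4
      have hu := len_nonneg g u
      have hw := len_nonneg g w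
      by_cases h5 : g.SameCycle u v
      · rw [h1 v (Or.inl h5)] at h4
        rw [← len_congr h5] at h3
        linarith
      · by_cases h6 : g.SameCycle w v
        · rw [h1 v (Or.inr h6)] at h4
          rw [← len_congr h6] at h3
          linarith
        · rw [h2 v h5 h6] at h4
          linarith
    refine ⟨?_, fun v h3 h4 => absurd h4 (hno v h3)⟩
    rw [cnt_false (fun v h => hno v h.1 h.2)]
    linarith

end Pool.Agent.W248.LR
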